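import Pool.Agent.PathPartitionEq.Block

/-!
# The path partition conjecture for digraphs fails in its weak form

The weak form of the conjecture, with inequalities, says that for every digraph `D` and all
positive integers `l1, l2` with `l1 + l2 = λ(D)` there is a partition `(V1, V2)` of the vertices
with `λ(D[V1]) ≤ l1` and `λ(D[V2]) ≤ l2`. We show that for every `n ≥ 22` there is a finite
oriented graph `D` (no loops, no pairs of opposite arcs) with `λ(D) = n` for which this fails for
all `l1 ≥ 1` with `11 * (l1 + 1) ≤ n`. So for every `l1 ≥ 1` and every `l2 ≥ 10 * l1 + 11` there is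
a counterexample.

For `l1 = 1` the sets `V1` with `λ(D[V1]) ≤ 1` are the stable sets, and `λ(D[V2]) ≤ λ(D) - 1` says
that `V1` meets all longest paths. So no stable set of `D` meets every longest path: this refutes
the conjecture of Laborde, Payan and Xuong (1982) that every digraph has a stable set that meets
every longest path.

Construction. There is an oriented graph `G` on 12 vertices with 24 arcs, three exits and a directed
triangle `T` such that the directed paths of `G` have at most 11 vertices, those that end in an
exit have at most 10, those that end in an exit and have 10 vertices start in `T`, and each vertex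
of `T` is avoided by one of these. The digraph `D` consists of a transitive tournament on `n` main
vertices and, for each main vertex `j`, a copy of `G` and a copy of its reverse, arranged in such a
way that a set `V1` of the wanted kind contains exactly `l1` main vertices and the gadgets at one
of them force a path with `l2 + 1` vertices outside `V1`.
-/

set_option autoImplicit false

namespace Pool.Agent.Results.MP_398cfe_co.WeakForm

/-- `f` is a directed path of `D` on `m` vertices. -/
def IsDiPath {V : Type} (D : Digraph V) {m : ℕ} (f : Fin m → V) : Prop :=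
  Function.Injective f ∧ ∀ i j : Fin m, j.val = i.val + 1 → D.Adj (f i) (f j)

/-- Every directed path of `D` all of whose vertices lie in `U` has at most `k` vertices. -/
def AtMost {V : Type} (D : Digraph V) (U : Set V) (k : ℕ) : Prop :=
  ∀ (m : ℕ) (f : Fin m → V), IsDiPath D f → (∀ i, f i ∈ U) → m ≤ k

/-- For every `n ≥ 22` there is a finite oriented graph `D` whose longest directed path has `n`
vertices such that for every `l1 ≥ 1` with `11 * (l1 + 1) ≤ n` the vertices of `D` cannot be
partitioned into two sets `V1`, `V2` with `λ(D[V1]) ≤ l1` and `λ(D[V2]) ≤ n - l1`. -/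
theorem result (n : ℕ) (hn : 22 ≤ n) :
    ∃ (V : Type) (_ : Fintype V) (D : Digraph V),
      (∀ v, ¬ D.Adj v v) ∧ (∀ v w, D.Adj v w → ¬ D.Adj w v) ∧
      (∃ f : Fin n → V, IsDiPath D f) ∧ AtMost D Set.univ n ∧
      ∀ l1 l2 : ℕ, 1 ≤ l1 → l1 + l2 = n → 11 * (l1 + 1) ≤ n →
        ∀ V1 : Set V, ¬ (AtMost D V1 l1 ∧ AtMost D V1ᶜ l2) := by
  refine ⟨PathPartitionEq.Weak.W n, inferInstance, PathPartitionEq.Weak.D n,
    PathPartitionEq.Weak.not_arc_self, PathPartitionEq.Weak.arc_asymm, ?_, ?_, ?_⟩
  · obtain ⟨L, hL, hl⟩ := PathPartitionEq.Weak.exists_main (n := n)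
    obtain ⟨f, hf, -, ha⟩ := PathPartitionEq.Weak.exists_fun (m := n) L hL hl
    exact ⟨f, hf, ha⟩
  · intro m f hf _
    have h1 := PathPartitionEq.Weak.length_le hn _
      (PathPartitionEq.Weak.isPath_ofFn f hf.1 hf.2)
    simpa using h1
  · rintro l1 l2 h1 h2 h3 V1 ⟨h4, h5⟩
    refine PathPartitionEq.Weak.no_partition (n := n) l1 h1 h3 V1 ?_ ?_
    · intro L hL hLV
      obtain ⟨f, hf, hm, ha⟩ := PathPartitionEq.Weak.exists_fun (m := L.length) L hL rfl
      exact h4 _ f ⟨hf, ha⟩ (fun i => hLV _ (hm i))
    · intro L hL hLV
      obtain ⟨f, hf, hm, ha⟩ := PathPartitionEq.Weak.exists_fun (m := L.length) L hL rfl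
      have h6 := h5 _ f ⟨hf, ha⟩ (fun i => hLV _ (hm i))
      omega

end Pool.Agent.Results.MP_398cfe_co.WeakForm
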